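import Pool.Agent.H6.FI.TargetsC

/-!
MP_7500ea_al, board fi_modules, row CEN: the centraliser of the Fitting subgroup modulo the
Frattini subgroup.
-/

set_option autoImplicit false

open scoped Classical

namespace Pool.Agent.H43.FI

open _root_.FI

theorem pf_CEN (h1 : T_SOL) (h2 : T_FNL) (h3 : T_FPH) (h4 : T_NPH) : T_CEN := by
  intro G _ _ g hg hga
  have hS : Group.IsSolvable (sol G) := (h1 G).1
  obtain ⟨Φ, hΦ⟩ : ∃ Φ : Subgroup G, Φ = frattini G := ⟨_, rfl⟩
  have hΦn : Φ.Normal := by rw [hΦ]; infer_instance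
  obtain ⟨C, hC⟩ : ∃ C : Subgroup G, C = sol G ⊓ (Subgroup.centralizer
    (((fit G).map (QuotientGroup.mk' Φ) : Subgroup (G ⧸ Φ)) : Set (G ⧸ Φ))).comap
      (QuotientGroup.mk' Φ) := ⟨_, rfl⟩
  have hmap : ((fit G).map (QuotientGroup.mk' Φ)).Normal :=
    Subgroup.Normal.map (fit_normal G) _ (QuotientGroup.mk'_surjective Φ)
  have hCn : C.Normal := by rw [hC]; infer_instance
  have hCS : C ≤ sol G := by rw [hC]; exact inf_le_left
  have hCc : ∀ c ∈ C, ∀ a ∈ fit G, a * c * a⁻¹ * c⁻¹ ∈ Φ := by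
    intro c hc a ha
    rw [hC] at hc
    have h5 := Subgroup.mem_centralizer_iff.1 hc.2 (QuotientGroup.mk' Φ a)
      (Subgroup.mem_map_of_mem _ ha)
    have h6 : QuotientGroup.mk' Φ (a * c * a⁻¹ * c⁻¹) = 1 := by
      rw [map_mul, map_mul, map_mul, h5, map_inv, map_inv]
      group
    exact (QuotientGroup.eq_one_iff _).1 h6
  have hgC : g ∈ C := by
    rw [hC]
    refine ⟨hg, ?_⟩
    show QuotientGroup.mk' Φ g ∈ Subgroup.centralizer _
    rw [Subgroup.mem_centralizer_iff]
    rintro _ ⟨a, ha, rfl⟩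
    have h5 := hga a ha
    rw [← hΦ] at h5
    have h6 : QuotientGroup.mk' Φ (g * a * g⁻¹ * a⁻¹) = 1 := (QuotientGroup.eq_one_iff _).2 h5
    rw [map_mul, map_mul, map_mul, map_inv, map_inv] at h6
    have h7 : QuotientGroup.mk' Φ g * QuotientGroup.mk' Φ a = QuotientGroup.mk' Φ a *
        QuotientGroup.mk' Φ g := by
      calc QuotientGroup.mk' Φ g * QuotientGroup.mk' Φ a =
          (QuotientGroup.mk' Φ g * QuotientGroup.mk' Φ a * (QuotientGroup.mk' Φ g)⁻¹ *
            (QuotientGroup.mk' Φ a)⁻¹) * (QuotientGroup.mk' Φ a * QuotientGroup.mk' Φ g) := by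
            group
        _ = _ := by rw [h6, one_mul]
    exact h7.symm
  suffices hle : C ≤ fit G from hle hgC
  by_contra hnot
  -- a minimal normal subgroup of `G` in `C` outside `fit G`
  obtain ⟨M, hM⟩ := Set.Finite.exists_minimal
    (s := {M : Subgroup G | M.Normal ∧ M ≤ C ∧ ¬ M ≤ fit G}) (Set.toFinite _)
    ⟨C, hCn, le_rfl, hnot⟩
  obtain ⟨hMn, hMC, hMF⟩ := hM.prop
  have hMM : ⁅M, M⁆ ≤ fit G := by
    by_contra hcon
    have hle : ⁅M, M⁆ ≤ M := Subgroup.commutator_le_left M M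
    have h5 : M ≤ ⁅M, M⁆ := hM.le_of_le ⟨inferInstance, hle.trans hMC, hcon⟩ hle
    have hMS : Group.IsSolvable M :=
      Group.isSolvable_of_isSolvable_injective (Subgroup.inclusion_injective (hMC.trans hCS))
    have hMnt : Nontrivial M := by
      rw [Subgroup.nontrivial_iff_ne_bot]
      intro h0
      exact hMF (by rw [h0]; exact bot_le)
    have h6 : commutator M < ⊤ := Group.IsSolvable.commutator_lt_top_of_nontrivial M
    apply h6.ne
    apply Subgroup.map_injective M.subtype_injective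
    rw [Subgroup.map_subtype_commutator]
    rw [← MonoidHom.range_eq_map, Subgroup.range_subtype]
    exact le_antisymm hle h5
  have hlow : M.lowerCentralSeries 2 ≤ Φ := by
    rw [Subgroup.lowerCentralSeries_succ, Subgroup.lowerCentralSeries_succ,
      Subgroup.lowerCentralSeries_zero, Subgroup.commutator_le]
    intro a ha c hc
    exact hCc c (hMC hc) a (hMM ha)
  obtain ⟨N, hN⟩ : ∃ N : Subgroup G, N = M ⊔ Φ := ⟨_, rfl⟩
  have hNn : N.Normal := by rw [hN]; infer_instance
  have hNlow : N.lowerCentralSeries 2 ≤ Φ := by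
    have h5 : (M.lowerCentralSeries 2).map (QuotientGroup.mk' Φ) = ⊥ := by
      rw [Subgroup.map_eq_bot_iff, QuotientGroup.ker_mk']
      exact hlow
    have h6 : N.map (QuotientGroup.mk' Φ) = M.map (QuotientGroup.mk' Φ) := by
      rw [hN, Subgroup.map_sup]
      have : Φ.map (QuotientGroup.mk' Φ) = ⊥ := by
        rw [Subgroup.map_eq_bot_iff, QuotientGroup.ker_mk']
      rw [this, sup_bot_eq]
    have h7 : (N.lowerCentralSeries 2).map (QuotientGroup.mk' Φ) = ⊥ := by
      rw [Subgroup.map_lowerCentralSeries, h6, ← Subgroup.map_lowerCentralSeries, h5]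
    rw [Subgroup.map_eq_bot_iff, QuotientGroup.ker_mk'] at h7
    exact h7
  have hNil : Group.IsNilpotent N := by
    refine h4 G N hNn ?_ ⟨2, ?_⟩
    · rw [← hΦ, hN]; exact le_sup_right
    · rw [← hΦ]; exact hNlow
  apply hMF
  refine le_trans ?_ (le_sSup (show N ∈ {N : Subgroup G | N.Normal ∧ Group.IsNilpotent N} from
    ⟨hNn, hNil⟩))
  rw [hN]; exact le_sup_left

end Pool.Agent.H43.FI
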