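import Pool.Agent.H6.FI.TargetsA

/-!
MP_7500ea_al, board fi_modules, row FAC: the trivial bound for the index of the core.
-/

set_option autoImplicit false

open scoped Classical

namespace Pool.Agent.H43.FI

open _root_.FI

theorem pf_FAC : T_FAC := by
  intro R _ _ H
  have h1 : H.normalCore = (MulAction.toPermHom R (R ⧸ H)).ker := Subgroup.normalCore_eq_ker H
  rw [h1, Subgroup.index_ker]
  have h2 : Nat.card (MulAction.toPermHom R (R ⧸ H)).range ≤ Nat.card (Equiv.Perm (R ⧸ H)) :=
    Nat.card_le_card_of_injective Subtype.val Subtype.val_injective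
  rwa [Nat.card_perm] at h2

end Pool.Agent.H43.FI
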