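import Pool.Agent.H6.FI.TargetsC

/-!
MP_7500ea_al, board fi_modules, row GRP: the group theory of the index of the Fitting subgroup.
-/

set_option autoImplicit false

open scoped Classical

namespace Pool.Agent.H43.FI

open _root_.FI

theorem fit_le_sol (h1 : T_SOL) (G : Type) [Group G] [Finite G] : fit G ≤ sol G := by
  refine sSup_le fun N hN => ?_
  have := hN.2
  exact (h1 G).2.1 N hN.1 inferInstance

theorem index_map_mk {G : Type} [Group G] [Finite G] (S : Subgroup G) [S.Normal]
    (T : Subgroup G) :
    T.index = T.relIndex S * (T.map (QuotientGroup.mk' S)).index := by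
  have e1 : S.relIndex T * T.index = T.relIndex S * S.index := by
    have h1 := Subgroup.relIndex_mul_index (H := T ⊓ S) (K := T) inf_le_left
    have h2 := Subgroup.relIndex_mul_index (H := T ⊓ S) (K := S) inf_le_right
    rw [Subgroup.inf_relIndex_left] at h1
    rw [Subgroup.inf_relIndex_right] at h2
    rw [h1, h2]
  have e2 : S.index = S.relIndex T * (T.map (QuotientGroup.mk' S)).index := by
    have h1 : S.relIndex T = Nat.card (T.map (QuotientGroup.mk' S)) := by
      rw [← Subgroup.relIndex_ker, QuotientGroup.ker_mk']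
    rw [h1, Subgroup.card_mul_index]
    rfl
  have e3 : 0 < S.relIndex T := Nat.pos_of_ne_zero (S.subgroupOf T).index_ne_zero_of_finite
  rw [e2] at e1
  apply Nat.eq_of_mul_eq_mul_left e3
  rw [e1]
  ring

theorem pf_GRP (h1 : T_SOL) (h2 : T_SQ) : T_GRP := by
  intro G _ _ e he hq T hFT hrel Y _ _ q hqs hqk
  have hS : Group.IsSolvable (sol G) := (h1 G).1
  have hFS : fit G ≤ sol G := fit_le_sol h1 G
  have hFsol : Group.IsSolvable (fit G) :=
    Group.isSolvable_of_isSolvable_injective (Subgroup.inclusion_injective hFS)
  -- the image of `T`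
  obtain ⟨Tb, hTb⟩ : ∃ Tb : Subgroup (G ⧸ sol G), Tb = T.map (QuotientGroup.mk' (sol G)) :=
    ⟨_, rfl⟩
  have hidx := index_map_mk (sol G) T
  rw [← hTb] at hidx
  have hb := hq Tb
  have hbot : (sol (G ⧸ sol G)).index = (sol G).index := by
    rw [(h1 G).2.2.2, Subgroup.index_bot]
    rfl
  rw [hbot] at hb
  -- the radicals of `T`, `Tb`, `Y`
  have hY : (sol T).index = (sol Y).index := by
    refine (h2 T Y q hqs ?_).1
    have hm : ∀ x : q.ker, ((x : T) : G) ∈ fit G := fun x => (hqk x.1).1 x.2
    let j : q.ker →* fit G :=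
      { toFun := fun x => ⟨((x : T) : G), hm x⟩
        map_one' := rfl
        map_mul' := fun _ _ => rfl }
    have hj : Function.Injective j := by
      intro a b hab
      have := congrArg (fun x : fit G => (x : G)) hab
      exact Subtype.ext (Subtype.ext this)
    exact Group.isSolvable_of_isSolvable_injective hj
  have hT : (sol T).index = (sol Tb).index := by
    have hmem : ∀ x : T, QuotientGroup.mk' (sol G) (x : G) ∈ Tb := by
      intro x
      rw [hTb]
      exact Subgroup.mem_map_of_mem _ x.2
    let f : T →* Tb :=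
      { toFun := fun x => ⟨QuotientGroup.mk' (sol G) (x : G), hmem x⟩
        map_one' := by
          apply Subtype.ext
          simp
        map_mul' := fun a b => by
          apply Subtype.ext
          simp }
    refine (h2 T Tb f ?_ ?_).1
    · rintro ⟨y, hy⟩
      rw [hTb] at hy
      obtain ⟨x, hx, rfl⟩ := hy
      exact ⟨⟨x, hx⟩, rfl⟩
    · have hm : ∀ x : f.ker, ((x : T) : G) ∈ sol G := by
        intro x
        have hx : f x.1 = 1 := x.2
        have hx2 := congrArg (fun y : Tb => (y : G ⧸ sol G)) hx
        exact (QuotientGroup.eq_one_iff _).1 hx2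
      let j : f.ker →* sol G :=
        { toFun := fun x => ⟨((x : T) : G), hm x⟩
          map_one' := rfl
          map_mul' := fun _ _ => rfl }
      have hj : Function.Injective j := by
        intro a b hab
        have := congrArg (fun x : sol G => (x : G)) hab
        exact Subtype.ext (Subtype.ext this)
      exact Group.isSolvable_of_isSolvable_injective hj
  rw [← hT, hY] at hb
  -- the computation
  have hF := Subgroup.relIndex_mul_index hFS
  have hFr : ((fit G).index : ℝ) = ((fit G).relIndex (sol G) : ℝ) * ((sol G).index : ℝ) := by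
    rw [← hF]; push_cast; ring
  have hTr : ((T.index : ℕ) : ℝ) ^ e = (T.relIndex (sol G) : ℝ) ^ e * (Tb.index : ℝ) ^ e := by
    rw [hidx]; push_cast
    rw [Real.mul_rpow (by positivity) (by positivity)]
  rw [hFr, hTr]
  calc ((fit G).relIndex (sol G) : ℝ) * ((sol G).index : ℝ)
      ≤ (T.relIndex (sol G) : ℝ) ^ e * ((Tb.index : ℝ) ^ e * ((sol Y).index : ℝ)) :=
        mul_le_mul hrel hb (by positivity) (by positivity)
    _ = _ := by ring

end Pool.Agent.H43.FI
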